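import Pool.Agent.Lib.MP_6d445e_gt.H12.Tree

/-!
# SUC: the next splitting node
-/

universe u v w

open Cardinal Filter

namespace Pool.Agent.Lib.MP_6d445e_gt.H12

open Pool.Agent.Lib.MP_100a6c_lc
open Pool.Agent.Lib.MP_c5d73d_lc.F (pr)
open Pool.Agent.Lib.MP_e6fef2_lc

section Meas2

variable {A : Type u} [CompleteBooleanAlgebra A]

theorem meas_eq {F : Ult A → ℕ} (hF : Measurable F) (k : ℕ) : Measurable fun g => F g = k :=
  measurableSet_setOfPred.1 (hF (measurableSet_singleton k))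

theorem meas_of_eq {F : Ult A → ℕ} (hF : ∀ k, Measurable fun g => F g = k) : Measurable F :=
  measurable_of_fibers fun k => measurableSet_setOfPred.2 (hF k)

theorem meas_sInf {R : ℕ → Ult A → Prop} (hR : ∀ l, Measurable (R l)) :
    Measurable fun g => sInf {l | R l g} := by
  refine meas_of_eq fun k => ?_
  have h1 : (fun g : Ult A => sInf {l | R l g} = k) =
      fun g => (R k g ∧ ∀ i, i < k → ¬ R i g) ∨ (k = 0 ∧ ∀ i, ¬ R i g) := by
    funext g
    refine propext ⟨?_, ?_⟩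
    · intro h
      rcases Set.eq_empty_or_nonempty {l | R l g} with he | hne
      · right
        refine ⟨?_, fun i hi => ?_⟩
        · rw [← h, he, Nat.sInf_empty]
        · have : i ∈ ({l | R l g} : Set ℕ) := hi
          rw [he] at this
          exact this
      · left
        refine ⟨?_, fun i hi => ?_⟩
        · have := Nat.sInf_mem hne
          rw [h] at this
          exact this
        · rw [← h] at hi
          exact Nat.notMem_of_lt_sInf hi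
    · rintro (⟨h1, h2⟩ | ⟨h1, h2⟩)
      · have hne : ({l | R l g} : Set ℕ).Nonempty := ⟨k, h1⟩
        refine le_antisymm (Nat.sInf_le h1) ?_
        by_contra hc
        exact h2 _ (not_le.1 hc) (Nat.sInf_mem hne)
      · have he : {l | R l g} = ∅ := by
          ext i
          simpa using h2 i
        rw [he, Nat.sInf_empty, h1]
  rw [h1]
  refine Measurable.or (Measurable.and (hR k) (Measurable.forall fun i => ?_))
    (Measurable.and measurable_const (Measurable.forall fun i => (hR i).not))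
  exact Measurable.imp measurable_const (hR i).not

theorem meas_compP {P : ℕ → Ult A → Prop} (hP : ∀ n, Measurable (P n)) {m : Ult A → ℕ}
    (hm : Measurable m) : Measurable fun g => P (m g) g := by
  have h1 : (fun g => P (m g) g) = fun g => ∃ j, m g = j ∧ P j g := by
    funext g
    refine propext ⟨fun h => ⟨_, rfl, h⟩, ?_⟩
    rintro ⟨_, rfl, h⟩
    exact h
  rw [h1]
  exact Measurable.exists fun j => Measurable.and (meas_eq hm j) (hP j)

theorem meas_comp {F : ℕ → Ult A → ℕ} (hF : ∀ n, Measurable (F n)) {m : Ult A → ℕ}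
    (hm : Measurable m) : Measurable fun g => F (m g) g :=
  meas_of_eq fun k => meas_compP (P := fun n g => F n g = k) (fun n => meas_eq (hF n) k) hm

theorem meas_fun {m : Ult A → ℕ} (hm : Measurable m) (φ : ℕ → ℕ) : Measurable fun g => φ (m g) :=
  meas_comp (F := fun n _ => φ n) (fun _ => measurable_const) hm

theorem meas_fv (J : ℕ → ℕ → A) (n : ℕ) : Measurable fun g => fv J g n :=
  meas_sInf fun k => hm (J n k)

theorem fname_of {F : ℕ → Ult A → ℕ} (hF : ∀ n, Measurable (F n)) :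
    ∃ x : ℕ → ℕ → A, IsFN x ∧ ∀ᶠ g in ae A, (∀ n k, x n k ∈ g ↔ F n g = k) ∧
      ∀ n, fv x g n = F n g := by
  obtain ⟨x, hx⟩ := exists_fname (F := F) fun n k => measurableSet_setOfPred.2 (meas_eq (hF n) k)
  refine ⟨x, ?_, ?_⟩
  · filter_upwards [hx] with g hx n
    refine ⟨F n g, (hx n _).2 rfl, fun k hk => ((hx n k).1 hk).symm⟩
  · filter_upwards [hx] with g hx
    refine ⟨hx, fun n => ?_⟩
    have h1 : {k | x n k ∈ g} = {F n g} := by
      ext k
      exact (hx n k).trans ⟨fun h => h.symm, fun h => (Set.mem_singleton_iff.1 h).symm⟩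
    unfold fv
    rw [h1, csInf_singleton]

end Meas2

section

variable {A C : Type u} [CompleteBooleanAlgebra A] [CompleteBooleanAlgebra C]

/-- The Boolean value of: `τ` forces `c`. -/
def fog (E : A → C) (G : MX A → C) (τ : MX A) (c : C) : A := (prj E (G τ ⊓ cᶜ))ᶜ

/-- The properties of the maps `lp t`, and density. -/
structure MExt2 (E : A → C) (G : MX A → C) (N : List ℕ → C) (lq : List ℕ → C → A) : Prop where
  ex : MExt E G N
  addM : ∀ t, AddM E (lq t)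
  lq_eq : ∀ t c, lq t c = ⨅ m, ⨆ k, ⨆ _ : m ≤ k, prj E (c ⊓ N (t ++ [k]))
  lq3 : ∀ t t' c, c ≤ N t' → lq t c ≠ ⊥ → t' <+: t
  dns : ∀ (c : C) (x : ℕ → C), prj E c ≤ ⨆ t, ⨆ τ : MX A, ⨆ z : ℕ → A,
    fog E G τ c ⊓ stm τ t ⊓ itp E (lq t) (G τ) x z

theorem mext2 (hND : NdStatement.{u}) (hM : MxfStatement.{u}) (hL : LpStatement.{u})
    (hDe : DensStatement.{u}) (A : Type u) [CompleteBooleanAlgebra A] :
    MExt2 (mE A) mG ND lp := by
  obtain ⟨l1, l2, l3⟩ := hL A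
  exact ⟨mext hND hM A, l1, fun t c => rfl, l3, hDe A⟩

variable {E : A → C} {G : MX A → C} {N : List ℕ → C} {lq : List ℕ → C → A}

theorem fog_mono (hE : IsCE E) (τ : MX A) {c c' : C} (h : c ≤ c') : fog E G τ c ≤ fog E G τ c' :=
  compl_le_compl (prj_mono hE (inf_le_inf_left _ (compl_le_compl h)))

theorem MExt.fog_iff (H : MExt E G N) (τ : MX A) (c : C) (a : A) :
    a ≤ fog E G τ c ↔ E a ⊓ G τ ≤ c := H.force τ c a

/-- States with an element of the dense set. -/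
abbrev Stt (A C : Type u) [CompleteBooleanAlgebra A] [CompleteBooleanAlgebra C] : Type u :=
  List ℕ × MX A × (ℕ → A) × C

/-- The properties of the names needed for the next node. -/
def GoodN (E : A → C) (G : MX A → C) (lq : List ℕ → C → A) (t : List ℕ)
    (τ : MX A) (x y : ℕ → C) (z : ℕ → A) (D : Set C) (J : ℕ → ℕ → A)
    (L Q K : ℕ → ℕ → A) (w : ℕ → Stt A C → A) : Prop :=
  IsFN L ∧ IsFN Q ∧ IsFN K ∧ (∀ᶠ g in ae A, ∀ k, k ≤ fv L g k) ∧
  (∀ᶠ g in ae A, itp E (lq t) (G τ) x z ∈ g → ∀ k, (⨆ s, w k s) ∈ g) ∧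
  ∀ s : Stt A C, ∀ᶠ g in ae A, ∀ k, w k s ∈ g → s.2.2.2 ∈ D ∧ t ++ [fv L g k] <+: s.1 ∧
    (MQ A).le s.2.1 τ ∈ g ∧ stm s.2.1 s.1 ∈ g ∧ fog E G s.2.1 s.2.2.2 ∈ g ∧
    itp E (lq s.1) (G s.2.1) (adn x y k) s.2.2.1 ∈ g ∧
    (∀ i ≤ k, fog E G s.2.1 (adn x y k i) ∈ g ∨ fog E G s.2.1 (adn x y k i)ᶜ ∈ g) ∧
    (∀ i < k, s.2.2.1 i ∈ g ↔ z i ∈ g) ∧ fv Q g k = s.1.foldr max 0 ∧
    ∀ v i, fv K g (Nat.pair k v) < i →
      s.2.2.1 (Nat.pair (Nat.pair (fv J g (fv L g k)) v) i) ∉ g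

theorem adn_lt (x y : ℕ → C) {k n : ℕ} (h : n < k) : adn x y k n = x n := by
  have h1 : ¬ k ≤ n.unpair.1 := by
    have := Nat.unpair_left_le n
    omega
  unfold adn
  simp [h1]

theorem sl_adn (hS : SlaStatement.{u}) {x y : ℕ → C} (hx : Sl x) (hy : Sl y) (k : ℕ) :
    Sl (adn x y k) := by
  obtain ⟨r, hr⟩ := hx
  obtain ⟨r', hr'⟩ := hy
  obtain ⟨_, _, s3, s4, _, _⟩ := hS C
  refine ⟨_, s4 _ _ _ _ ?_ (s3 r r' ⊤ x y hr hr')⟩
  intro n
  rw [top_inf_eq]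
  exact sup_le_sup_left (iSup_le fun _ => le_rfl) _

variable (hS : SlaStatement.{u}) (hI : ItpStatement.{u}) (hD : DisjStatement.{u})
  (H : MExt2 E G N lq)

include hS hI hD H

theorem exists_goodN (t : List ℕ) (τ : MX A) (x y : ℕ → C) (z : ℕ → A) (D : Set C)
    (J : ℕ → ℕ → A) (hx : Sl x) (hy : Sl y) (hDt : sSup D = ⊤) :
    ∃ (L Q K : ℕ → ℕ → A) (w : ℕ → Stt A C → A), GoodN E G lq t τ x y z D J L Q K w := by
  classical
  have hE := H.ex.ce
  obtain ⟨i1, i2, -, -, i5⟩ := hI A C E hE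
  -- the possible successors
  obtain ⟨b, hb⟩ : ∃ b : ℕ → ℕ → A, ∀ k l, b k l = prj E (G τ ⊓ agr E z x k ⊓ N (t ++ [l])) :=
    ⟨_, fun _ _ => rfl⟩
  have g2 : ∀ᶠ g in ae A, itp E (lq t) (G τ) x z ∈ g → ∀ k m, ∃ l, m ≤ l ∧ b k l ∈ g := by
    have h1 : ∀ᶠ g in ae A, ∀ k m, (⨆ l, ⨆ _ : m ≤ l, b k l) ∈ g ↔ ∃ l, (⨆ _ : m ≤ l, b k l) ∈ g :=
      ae_all fun k => ae_all fun m => ae_iSup _
    filter_upwards [h1] with g hg hIg k m
    have h2 : itp E (lq t) (G τ) x z ≤ ⨆ l, ⨆ _ : m ≤ l, b k l := by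
      refine (iInf_le _ k).trans ?_
      rw [H.lq_eq]
      refine (iInf_le _ m).trans ?_
      exact iSup_mono fun l => iSup_mono fun _ => (hb k l).ge
    obtain ⟨l, hl⟩ := (hg k m).1 (g.mono h2 hIg)
    exact ⟨l, mem_iSup_prop.1 hl⟩
  let Lf : ℕ → Ult A → ℕ := fun k g => sInf {l | k ≤ l ∧ (b k l ∈ g ∨ ∀ l', k ≤ l' → b k l' ∉ g)}
  have hLne : ∀ k (g : Ult A), ({l | k ≤ l ∧ (b k l ∈ g ∨ ∀ l', k ≤ l' → b k l' ∉ g)} :
      Set ℕ).Nonempty := by
    intro k g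
    by_cases h : ∃ l, k ≤ l ∧ b k l ∈ g
    · obtain ⟨l, h1, h2⟩ := h
      exact ⟨l, h1, Or.inl h2⟩
    · push Not at h
      exact ⟨k, le_rfl, Or.inr h⟩
  have hLf : ∀ k g, k ≤ Lf k g ∧ (b k (Lf k g) ∈ g ∨ ∀ l', k ≤ l' → b k l' ∉ g) := fun k g =>
    Nat.sInf_mem (hLne k g)
  have hLm : ∀ k, Measurable (Lf k) := fun k => meas_sInf fun l =>
    Measurable.and measurable_const (Measurable.or (hm _) (Measurable.forall fun l' =>
      Measurable.imp measurable_const (hm _).not))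
  obtain ⟨L, hL1, hL2⟩ := fname_of hLm
  -- the states
  let w0 : ℕ → Stt A C → ℕ → A := fun k s l => L k l ⊓
    (⨆ _ : s.2.2.2 ∈ D, fog E G s.2.1 (G τ ⊓ agr E z x k ⊓ N (t ++ [l]) ⊓ s.2.2.2)) ⊓
    (⨅ i ∈ Finset.range (k + 1), (fog E G s.2.1 (adn x y k i) ⊔ fog E G s.2.1 (adn x y k i)ᶜ)) ⊓
    stm s.2.1 s.1 ⊓ itp E (lq s.1) (G s.2.1) (adn x y k) s.2.2.1
  let w : ℕ → Stt A C → A := fun k s => ⨆ l, w0 k s l
  have hw : ∀ k l, L k l ⊓ b k l ≤ ⨆ s, w k s := by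
    intro k l
    by_contra hcon
    have h1 : L k l ⊓ b k l ⊓ (⨆ s, w k s)ᶜ ≠ ⊥ := by
      intro h
      apply hcon
      rw [← compl_compl (⨆ s, w k s), le_compl_iff_disjoint_right, disjoint_iff]
      exact h
    obtain ⟨a, ha⟩ : ∃ a, a = L k l ⊓ b k l ⊓ (⨆ s, w k s)ᶜ := ⟨_, rfl⟩
    rw [← ha] at h1
    obtain ⟨c0, hc0⟩ : ∃ c0, c0 = G τ ⊓ agr E z x k ⊓ N (t ++ [l]) := ⟨_, rfl⟩
    have hab : a ≤ b k l := by rw [ha]; exact inf_le_left.trans inf_le_right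
    have h2 : c0 ⊓ E a ≠ ⊥ := by
      intro h
      apply h1
      rw [← prj_eq_bot hE, prj_inf hE, hc0, ← hb, inf_eq_right.2 hab] at h
      exact h
    obtain ⟨h, hh, hhD⟩ := exists_of_ae (ae_sSup D) h2
    obtain ⟨d, hdD, hdh⟩ := hhD.1 (by rw [hDt]; exact h.mem_top)
    obtain ⟨c2, hc2⟩ : ∃ c2, c2 = c0 ⊓ E a ⊓ d ⊓ ⨅ i ∈ Finset.range (k + 1),
      (if adn x y k i ∈ h then adn x y k i else (adn x y k i)ᶜ) := ⟨_, rfl⟩
    have hc2h : c2 ∈ h := by
      rw [hc2, h.mem_inf, h.mem_inf]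
      refine ⟨⟨hh, hdh⟩, (h.mem_finset_iInf _ _).2 fun i _ => ?_⟩
      split_ifs with h3
      · exact h3
      · exact h.mem_compl.2 h3
    have hc2a : c2 ≤ c0 ⊓ E a ⊓ d := by rw [hc2]; exact inf_le_left
    have hc2d : ∀ i ∈ Finset.range (k + 1), c2 ≤ adn x y k i ∨ c2 ≤ (adn x y k i)ᶜ := by
      intro i hi
      have h3 : c2 ≤ (if adn x y k i ∈ h then adn x y k i else (adn x y k i)ᶜ) := by
        rw [hc2]; exact inf_le_right.trans (iInf₂_le i hi)
      split_ifs at h3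
      · exact Or.inl h3
      · exact Or.inr h3
    have h4 : prj E c2 ≠ ⊥ := by
      rw [Ne, prj_eq_bot hE]
      rintro rfl
      exact h.not_bot hc2h
    have h5 : ∃ (t' : List ℕ) (τ' : MX A) (z' : ℕ → A), prj E c2 ⊓
        (fog E G τ' c2 ⊓ stm τ' t' ⊓ itp E (lq t') (G τ') (adn x y k) z') ≠ ⊥ := by
      by_contra hc
      push Not at hc
      apply h4
      have h6 := inf_eq_left.2 (H.dns c2 (adn x y k))
      rw [← h6, inf_iSup_eq, iSup_eq_bot]
      intro t'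
      rw [inf_iSup_eq, iSup_eq_bot]
      intro τ'
      rw [inf_iSup_eq, iSup_eq_bot]
      intro z'
      exact hc t' τ' z'
    obtain ⟨t', τ', z', h6⟩ := h5
    apply h6
    have h7 : prj E c2 ≤ a := by
      rw [prj_le_iff hE]
      exact hc2a.trans (inf_le_left.trans inf_le_right)
    have h8 : prj E c2 ⊓ (fog E G τ' c2 ⊓ stm τ' t' ⊓ itp E (lq t') (G τ') (adn x y k) z') ≤
        w0 k (t', τ', z', d) l := by
      refine le_inf (le_inf (le_inf (le_inf ?_ ?_) ?_) ?_) ?_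
      · exact inf_le_left.trans (h7.trans (by rw [ha]; exact inf_le_left.trans inf_le_left))
      · refine le_iSup_of_le hdD ?_
        refine (inf_le_right.trans (inf_le_left.trans inf_le_left)).trans (fog_mono hE _ ?_)
        rw [← hc0]
        exact hc2a.trans (inf_le_inf_right _ inf_le_left)
      · refine (inf_le_right.trans (inf_le_left.trans inf_le_left)).trans ?_
        refine le_iInf₂ fun i hi => ?_
        rcases hc2d i hi with h9 | h9
        · exact (fog_mono hE _ h9).trans le_sup_left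
        · exact (fog_mono hE _ h9).trans le_sup_right
      · exact inf_le_right.trans (inf_le_left.trans inf_le_right)
      · exact inf_le_right.trans inf_le_right
    have h9 : prj E c2 ⊓ (fog E G τ' c2 ⊓ stm τ' t' ⊓ itp E (lq t') (G τ') (adn x y k) z') ≤
        ⨆ s, w k s := h8.trans ((le_iSup (w0 k (t', τ', z', d)) l).trans
          (le_iSup (w k) (t', τ', z', d)))
    have h10 : prj E c2 ⊓ (fog E G τ' c2 ⊓ stm τ' t' ⊓ itp E (lq t') (G τ') (adn x y k) z') ≤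
        (⨆ s, w k s)ᶜ := inf_le_left.trans (h7.trans (by rw [ha]; exact inf_le_right))
    exact le_bot_iff.1 ((le_inf h9 h10).trans (inf_compl_eq_bot).le)
  choose w' hw1 hw2 hw3 using fun k => hD A (Stt A C) (w k)
  have huniq : ∀ (g : Ult A) k s s', w' k s ∈ g → w' k s' ∈ g → s = s' := by
    intro g k s s' h h'
    by_contra hne
    have h1 := g.mem_inf.2 ⟨h, h'⟩
    rw [hw2 k s s' hne] at h1
    exact g.not_bot h1
  -- the name `Q`
  let Qf : ℕ → Ult A → ℕ := fun k g =>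
    if h : ∃ s, w' k s ∈ g then h.choose.1.foldr max 0 else 0
  have hQf : ∀ k (g : Ult A) s, w' k s ∈ g → Qf k g = s.1.foldr max 0 := by
    intro k g s hs
    have hex : ∃ s, w' k s ∈ g := ⟨s, hs⟩
    have h1 : Qf k g = hex.choose.1.foldr max 0 := dif_pos hex
    rw [h1, huniq g k _ s hex.choose_spec hs]
  have hQm : ∀ k, Measurable (Qf k) := by
    intro k
    refine measurable_of_fibers fun q => ?_
    refine ⟨(⨆ s, ⨆ _ : s.1.foldr max 0 = q, w' k s) ⊔ ⨆ _ : q = 0, (⨆ s, w' k s)ᶜ, ?_⟩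
    filter_upwards [ae_iSup fun s => ⨆ _ : s.1.foldr max 0 = q, w' k s, ae_iSup fun s => w' k s]
      with g h1 h2
    rw [g.mem_sup, h1, mem_iSup_prop, g.mem_compl, h2]
    show _ ↔ Qf k g = q
    constructor
    · rintro (⟨s, hs⟩ | ⟨hq, hn⟩)
      · obtain ⟨h3, h4⟩ := mem_iSup_prop.1 hs
        rw [hQf k g s h4, h3]
      · rw [hq]
        exact dif_neg hn
    · intro hq
      by_cases hex : ∃ s, w' k s ∈ g
      · obtain ⟨s, hs⟩ := hex
        left
        refine ⟨s, mem_iSup_prop.2 ⟨?_, hs⟩⟩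
        rw [← hQf k g s hs, hq]
      · right
        refine ⟨?_, hex⟩
        rw [← hq]
        exact dif_neg hex
  obtain ⟨Q, hQ1, hQ2⟩ := fname_of hQm
  -- the name `K`
  let zz : ℕ → ℕ → A := fun k n => ⨆ s, w' k s ⊓ s.2.2.1 n
  have hzz : ∀ (g : Ult A) k s n, w' k s ∈ g → s.2.2.1 n ∈ g → zz k n ∈ g := by
    intro g k s n h h'
    exact g.mono (le_iSup (fun s => w' k s ⊓ s.2.2.1 n) s) (g.mem_inf.2 ⟨h, h'⟩)
  have hzz' : ∀ (g : Ult A) k s n, w' k s ∈ g → zz k n ∈ g → s.2.2.1 n ∈ g := by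
    intro g k s n h h'
    refine g.mono ?_ (g.mem_inf.2 ⟨h', h⟩)
    rw [iSup_inf_eq]
    refine iSup_le fun s' => ?_
    by_cases hs : s' = s
    · rw [hs]
      exact inf_le_left.trans inf_le_right
    · refine le_trans (inf_le_inf_right _ inf_le_left) ?_
      rw [hw2 k s' s hs]
      exact bot_le
  let Kf : ℕ → Ult A → ℕ := fun j g => sInf {h | ∀ i,
    zz j.unpair.1 (Nat.pair (Nat.pair (fv J g (Lf j.unpair.1 g)) j.unpair.2) i) ∈ g → i ≤ h}
  have hKm : ∀ j, Measurable (Kf j) := by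
    intro j
    refine meas_sInf fun h => Measurable.forall fun i => Measurable.imp ?_ measurable_const
    refine meas_compP (P := fun n g => zz j.unpair.1 n ∈ g) (fun n => hm _) ?_
    exact meas_fun (meas_comp (meas_fv J) (hLm _)) fun n => Nat.pair (Nat.pair n j.unpair.2) i
  obtain ⟨K, hK1, hK2⟩ := fname_of hKm
  refine ⟨L, Q, K, w', hL1, hQ1, hK1, ?_, ?_, ?_⟩
  · filter_upwards [hL2] with g hg k
    rw [hg.2]
    exact (hLf k g).1
  · filter_upwards [hL2, g2] with g hg g2 hIg k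
    rw [hw3]
    refine g.mono (hw k (Lf k g)) (g.mem_inf.2 ⟨(hg.1 k _).2 rfl, ?_⟩)
    obtain ⟨l, hl, hl'⟩ := g2 hIg k k
    exact (hLf k g).2.resolve_right fun h => h l hl hl'
  · rintro s
    obtain ⟨t', τ', z', d⟩ := s
    obtain ⟨i51, i52, i53, -, i55, i56, -, -, i59⟩ := i5 (lq t') (H.addM t')
    have e1 : ∀ᶠ g in ae A, ∀ k, (⨆ l, w0 k (t', τ', z', d) l) ∈ g ↔
        ∃ l, w0 k (t', τ', z', d) l ∈ g := ae_all fun k => ae_iSup _
    have e2 : ∀ᶠ g in ae A, ∀ k, itp E (lq t') (G τ') (adn x y k) z' ∈ g →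
        ∀ p, {i | z' (Nat.pair p i) ∈ g}.Finite := by
      refine ae_all fun k => ?_
      obtain ⟨r, hr⟩ := sl_adn hS hx hy k
      obtain ⟨_, s2, _⟩ := hS C
      have h1 := i59 (G τ') (adn x y k) z' r (s2 r r ⊤ (G τ') _ (fun _ => le_rfl) le_top hr)
      filter_upwards [h1] with g hg hit p
      exact Set.finite_of_encard_le_coe (hg hit p)
    filter_upwards [hL2, hQ2, hK2, e1, e2] with g hL hQ hK e1 e2 k hwg
    have h1 : (⨆ l, w0 k (t', τ', z', d) l) ∈ g := g.mono (hw1 k _) hwg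
    obtain ⟨l, hl⟩ := (e1 k).1 h1
    have hl' : L k l ∈ g ∧ (⨆ _ : d ∈ D, fog E G τ' (G τ ⊓ agr E z x k ⊓ N (t ++ [l]) ⊓ d)) ∈ g ∧
        (⨅ i ∈ Finset.range (k + 1), (fog E G τ' (adn x y k i) ⊔ fog E G τ' (adn x y k i)ᶜ)) ∈ g ∧
        stm τ' t' ∈ g ∧ itp E (lq t') (G τ') (adn x y k) z' ∈ g := by
      have h2 := g.mem_inf.1 hl
      have h3 := g.mem_inf.1 h2.1
      have h4 := g.mem_inf.1 h3.1
      have h5 := g.mem_inf.1 h4.1
      exact ⟨h5.1, h5.2, h4.2, h3.2, h2.2⟩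
    obtain ⟨h2, h3, h4, h5, h6⟩ := hl'
    obtain ⟨hdD, h3⟩ := mem_iSup_prop.1 h3
    have hlk : fv L g k = l := by rw [hL.2, (hL.1 k l).1 h2]
    refine ⟨hdD, ?_, ?_, h5, ?_, h6, ?_, ?_, ?_, ?_⟩
    · rw [hlk]
      show t ++ [l] <+: t'
      obtain ⟨a, ha⟩ : ∃ a, a = fog E G τ' (N (t ++ [l])) := ⟨_, rfl⟩
      have hag : a ∈ g := by
        rw [ha]
        exact g.mono (fog_mono hE _ (inf_le_left.trans inf_le_right)) h3
      have h7 : G τ' ⊓ E a ≤ N (t ++ [l]) := by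
        rw [inf_comm, ← H.ex.fog_iff, ha]
      refine H.lq3 t' (t ++ [l]) _ h7 ?_
      rw [(H.addM t').lin]
      intro h8
      have h9 : lq t' (G τ') ⊓ a ∈ g := g.mem_inf.2 ⟨g.mono (i53 _ _ _) h6, hag⟩
      rw [h8] at h9
      exact g.not_bot h9
    · have h7 : fog E G τ' (G τ ⊓ agr E z x k ⊓ N (t ++ [l]) ⊓ d) ≤ (MQ A).le τ' τ := by
        rw [← H.ex.leG τ' τ]
        exact fog_mono hE _ (inf_le_left.trans (inf_le_left.trans inf_le_left))
      exact g.mono h7 h3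
    · exact g.mono (fog_mono hE _ inf_le_right) h3
    · intro i hi
      have h7 := (g.mem_finset_iInf _ _).1 h4 i (Finset.mem_range.2 (Nat.lt_succ_of_le hi))
      exact g.mem_sup.1 h7
    · intro i hi
      show z' i ∈ g ↔ z i ∈ g
      obtain ⟨a, ha⟩ : ∃ a, a = fog E G τ' (agr E z (adn x y k) k) := ⟨_, rfl⟩
      have hagr : agr E z (adn x y k) k = agr E z x k := by
        unfold agr
        refine iInf_congr fun n => iInf_congr fun hn => ?_
        rw [adn_lt x y hn]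
      have hag : a ∈ g := by
        rw [ha, hagr]
        exact g.mono (fog_mono hE _ (inf_le_left.trans (inf_le_left.trans inf_le_right))) h3
      have h7 : G τ' ⊓ E a ≤ agr E z (adn x y k) k := by
        rw [inf_comm, ← H.ex.fog_iff, ha]
      have h8 := i56 (G τ' ⊓ E a) (adn x y k) z' z k h7
      rw [i55] at h8
      have h9 := g.mono h8 (g.mem_inf.2 ⟨h6, hag⟩)
      have h10 := (hI A A (fun a => a) (all_alg2 A A A (fun a => a) (fun a => a)
        ⟨fun _ _ h => h, fun _ => rfl, fun s => sSup_eq_iSup⟩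
        ⟨fun _ _ h => h, fun _ => rfl, fun s => sSup_eq_iSup⟩).2.2).1 z z' k g
      exact ((h10.1 h9) i hi).symm
    · rw [hQ.2]
      exact hQf k g _ hwg
    · intro v i hi hz
      rw [hK.2] at hi
      have hfin := e2 k h6 (Nat.pair (fv J g (fv L g k)) v)
      have hne : ({h | ∀ i, zz (Nat.pair k v).unpair.1 (Nat.pair (Nat.pair (fv J g
          (Lf (Nat.pair k v).unpair.1 g)) (Nat.pair k v).unpair.2) i) ∈ g → i ≤ h} :
          Set ℕ).Nonempty := by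
        obtain ⟨M, hM⟩ := hfin.bddAbove
        refine ⟨M, fun i hi => ?_⟩
        rw [Nat.unpair_pair, ← hL.2] at hi
        exact hM (hzz' g k _ _ hwg hi)
      have h7 := Nat.sInf_mem hne i (by
        rw [Nat.unpair_pair, ← hL.2]
        exact hzz g k _ _ hwg hz)
      exact absurd hi (not_lt.2 h7)

end

/-- Countable completeness of `club`. -/
theorem club_all {ι : Type} [Countable ι] {p : ι → Set El.{u} → Prop}
    (h : ∀ i, ∀ᶠ N in club, p i N) : ∀ᶠ N in club, ∀ i, p i N := by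
  rcases isEmpty_or_nonempty ι with hι | hι
  · exact Filter.Eventually.of_forall fun g i => isEmptyElim i
  · obtain ⟨e, he⟩ := exists_surjective_nat ι
    filter_upwards [all_club.2.2.1 (fun n => p (e n)) fun n => h (e n)] with N hN i
    obtain ⟨n, rfl⟩ := he i
    exact hN n

section

variable {A C : Type u} [CompleteBooleanAlgebra A] [CompleteBooleanAlgebra C]
  {E : A → C} {G : MX A → C} {Nd : List ℕ → C} {lq : List ℕ → C → A}
  (hS : SlaStatement.{u}) (hI : ItpStatement.{u}) (hD : DisjStatement.{u}) (hN : NgStatement.{u})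
  (H : MExt2 E G Nd lq)

include hS hI hD hN H

theorem MExt2.suc : ∀ᶠ N in club,
    ∀ (t : List ℕ) (τ : MX A) (x y : ℕ → C) (z : ℕ → A) (D : Set C) (J : ℕ → ℕ → A),
    In N τ → In N x → In N y → In N z → In N D → In N J → Sl x → Sl y → sSup D = ⊤ →
    ∀ᶠ g in ae A, gen A N ∈ g → itp E (lq t) (G τ) x z ∈ g →
      ∀ lam om : ℕ → ℕ, Ub N lam om g → ∀ m, ∃ k l, m ≤ k ∧ k ≤ l ∧
        ∃ (t' : List ℕ) (τ' : MX A) (z' : ℕ → A) (d : C), In N τ' ∧ In N z' ∧ In N d ∧ d ∈ D ∧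
          t ++ [l] <+: t' ∧ (MQ A).le τ' τ ∈ g ∧ stm τ' t' ∈ g ∧ fog E G τ' d ∈ g ∧
          itp E (lq t') (G τ') (adn x y k) z' ∈ g ∧
          (∀ i ≤ m, fog E G τ' (adn x y k i) ∈ g ∨ fog E G τ' (adn x y k i)ᶜ ∈ g) ∧
          (∀ i < k, z' i ∈ g ↔ z i ∈ g) ∧
          ∀ i, lam l ≤ i → z' (Nat.pair (Nat.pair (fv J g l) (om (t'.foldr max 0))) i) ∉ g := by
  classical
  obtain ⟨-, c2, -, -, -, c6, c7, -⟩ := all_club.{u}
  -- the choice function
  let P : Type u := MX A × (ℕ → C) × (ℕ → C) × (ℕ → A) × Set C × (ℕ → ℕ → A)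
  let O : Type u := (ℕ → ℕ → A) × (ℕ → ℕ → A) × (ℕ → ℕ → A) × (ℕ → Stt A C → A)
  let gd : List ℕ → P → O → Prop := fun t p o =>
    GoodN E G lq t p.1 p.2.1 p.2.2.1 p.2.2.2.1 p.2.2.2.2.1 p.2.2.2.2.2 o.1 o.2.1 o.2.2.1 o.2.2.2
  let F : List ℕ → P → O := fun t p =>
    if h : ∃ o, gd t p o then h.choose else
      (fun _ _ => ⊥, fun _ _ => ⊥, fun _ _ => ⊥, fun _ _ => ⊥)
  have a1 : ∀ᶠ N in club, ∀ (t : List ℕ) (p : P), In N p → In N (F t p) :=
    club_all fun t => c6 P O (F t)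
  have a2 := c7 (ℕ → A) (Set C × (ℕ → ℕ → A)) _ Prod.mk
  have a3 := c7 (ℕ → C) ((ℕ → A) × Set C × (ℕ → ℕ → A)) _ Prod.mk
  have a4 := c7 (ℕ → C) ((ℕ → C) × (ℕ → A) × Set C × (ℕ → ℕ → A)) _ Prod.mk
  have a5 := c7 (MX A) ((ℕ → C) × (ℕ → C) × (ℕ → A) × Set C × (ℕ → ℕ → A)) _ Prod.mk
  have a6 := c7 (Set C) (ℕ → ℕ → A) _ Prod.mk
  have b1 := c6 O (ℕ → ℕ → A) fun o => o.1
  have b2 := c6 O (ℕ → ℕ → A) fun o => o.2.1
  have b3 := c6 O (ℕ → ℕ → A) fun o => o.2.2.1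
  have b4 : ∀ᶠ N in club, ∀ (k : ℕ) (o : O), In N o → In N (o.2.2.2 k) :=
    club_all fun k => c6 O (Stt A C → A) fun o => o.2.2.2 k
  have d1 := c6 (Stt A C) (MX A) fun s => s.2.1
  have d2 := c6 (Stt A C) (ℕ → A) fun s => s.2.2.1
  have d3 := c6 (Stt A C) C fun s => s.2.2.2
  filter_upwards [c2, a1, a2, a3, a4, a5, a6, b1, b2, b3, b4, d1, d2, d3, hN A (Stt A C)] with
    N c2 a1 a2 a3 a4 a5 a6 b1 b2 b3 b4 d1 d2 d3 hNg
  intro t τ x y z D J hτ hx hy hz hDN hJ hsx hsy hDt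
  have hp : In N (show P from (τ, x, y, z, D, J)) :=
    a5 _ _ hτ (a4 _ _ hx (a3 _ _ hy (a2 _ _ hz (a6 _ _ hDN hJ))))
  have hgd : gd t (τ, x, y, z, D, J) (F t (τ, x, y, z, D, J)) := by
    obtain ⟨L, Q, K, w, h⟩ := exists_goodN hS hI hD H t τ x y z D J hsx hsy hDt
    have hex : ∃ o, gd t (τ, x, y, z, D, J) o := ⟨(L, Q, K, w), h⟩
    have h1 : F t (τ, x, y, z, D, J) = hex.choose := dif_pos hex
    rw [h1]
    exact hex.choose_spec
  have ho := a1 t _ hp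
  obtain ⟨o, hoe⟩ : ∃ o, o = F t (τ, x, y, z, D, J) := ⟨_, rfl⟩
  rw [← hoe] at hgd ho
  obtain ⟨L, Q, K, w⟩ := o
  have hLN : In N L := b1 _ ho
  have hQN : In N Q := b2 _ ho
  have hKN : In N K := b3 _ ho
  have hwN : ∀ k, In N (w k) := fun k => b4 k _ ho
  obtain ⟨h1, h2, h3, h4, h5, h6⟩ := hgd
  have hcount : Countable {s : Stt A C // In N s} := by
    have h7 : Countable N := c2.to_subtype
    refine Function.Injective.countable (f := fun s : {s : Stt A C // In N s} =>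
      (⟨(⟨Stt A C, s.1⟩ : El.{u}), s.2⟩ : N)) ?_
    intro s s' h
    have h8 := congrArg Subtype.val h
    simp only [Sigma.mk.injEq, heq_eq_eq, true_and] at h8
    exact Subtype.ext h8
  have h7 : ∀ᶠ g in ae A, ∀ s : {s : Stt A C // In N s}, _ := ae_all fun s => h6 s.1
  filter_upwards [h4, h5, h7, hNg] with g h4 h5 h7 hNg hgen hit lam om hUb m
  obtain ⟨k, hmk, hk⟩ := hUb L Q K hLN hQN hKN h1 h2 h3 (by assumption) m
  obtain ⟨s, hs, hsg⟩ := hNg hgen (w k) (hwN k) (h5 hit k)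
  obtain ⟨q1, q2, q3, q4, q5, q6, q7, q8, q9, q10⟩ := h7 ⟨s, hs⟩ k hsg
  refine ⟨k, fv L g k, hmk, h4 k, s.1, s.2.1, s.2.2.1, s.2.2.2, d1 _ hs, d2 _ hs, d3 _ hs, q1, q2,
    q3, q4, q5, q6, fun i hi => q7 i (hi.trans hmk), q8, fun i hi => ?_⟩
  refine q10 _ i ?_
  rw [← q9]
  exact lt_of_lt_of_le hk hi

end

/-- SUC. -/
theorem suc (hDe : DensStatement.{u}) (hD : DisjStatement.{u}) (hN : NgStatement.{u})
    (hI : ItpStatement.{u}) (hM : MxfStatement.{u}) (hND : NdStatement.{u}) (hL : LpStatement.{u})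
    (hS : SlaStatement.{u}) : SucStatement.{u} := by
  intro A _
  filter_upwards [(mext2 hND hM hL hDe A).suc hS hI hD hN] with N h t τ x y z D J h1 h2 h3 h4 h5 h6
    h7 h8 h9 _ _
  exact h t τ x y z D J h1 h2 h3 h4 h5 h6 h7 h8 h9

end Pool.Agent.Lib.MP_6d445e_gt.H12
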