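import Pool.Agent.Lib.MP_6d445e_gt.Iface

/-!
# Tools for Miller forcing: embeddings, measurability, fullness
-/

universe u v w

open Cardinal Filter

namespace Pool.Agent.Lib.MP_6d445e_gt.H12

open Pool.Agent.Lib.MP_100a6c_lc
open Pool.Agent.Lib.MP_c5d73d_lc.F (pr)
open Pool.Agent.Lib.MP_e6fef2_lc

section CE

variable {A C : Type u} [CompleteBooleanAlgebra A] [CompleteBooleanAlgebra C] {f : A → C}
  (hf : IsCE f)

include hf

theorem f_top : f ⊤ = ⊤ := (all_alg A C f hf).1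

theorem f_bot : f ⊥ = ⊥ := (all_alg A C f hf).2.1

theorem f_inf (a b : A) : f (a ⊓ b) = f a ⊓ f b := (all_alg A C f hf).2.2.1 a b

theorem f_sup (a b : A) : f (a ⊔ b) = f a ⊔ f b := (all_alg A C f hf).2.2.2.1 a b

theorem f_le {a b : A} : f a ≤ f b ↔ a ≤ b := (all_alg A C f hf).2.2.2.2.1 a b

theorem f_iSup {ι : Type u} (a : ι → A) : f (⨆ i, a i) = ⨆ i, f (a i) :=
  (all_alg A C f hf).2.2.2.2.2.1 ι a

theorem f_iInf {ι : Type u} (a : ι → A) : f (⨅ i, a i) = ⨅ i, f (a i) :=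
  (all_alg A C f hf).2.2.2.2.2.2.1 ι a

theorem f_iSup_nat (a : ℕ → A) : f (⨆ i, a i) = ⨆ i, f (a i) :=
  (all_alg A C f hf).2.2.2.2.2.2.2.1 a

theorem f_iInf_nat (a : ℕ → A) : f (⨅ i, a i) = ⨅ i, f (a i) :=
  (all_alg A C f hf).2.2.2.2.2.2.2.2.1 a

theorem le_f_prj (c : C) : c ≤ f (prj f c) := (all_alg A C f hf).2.2.2.2.2.2.2.2.2.1 c

theorem prj_le_iff {c : C} {a : A} : prj f c ≤ a ↔ c ≤ f a :=
  (all_alg A C f hf).2.2.2.2.2.2.2.2.2.2.1 c a

theorem prj_f (a : A) : prj f (f a) = a := (all_alg A C f hf).2.2.2.2.2.2.2.2.2.2.2.1 a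

theorem prj_mono {c d : C} (h : c ≤ d) : prj f c ≤ prj f d :=
  (all_alg A C f hf).2.2.2.2.2.2.2.2.2.2.2.2.1 c d h

theorem prj_iSup {ι : Type u} (c : ι → C) : prj f (⨆ i, c i) = ⨆ i, prj f (c i) :=
  (all_alg A C f hf).2.2.2.2.2.2.2.2.2.2.2.2.2.1 ι c

theorem prj_iSup_nat (c : ℕ → C) : prj f (⨆ i, c i) = ⨆ i, prj f (c i) :=
  (all_alg A C f hf).2.2.2.2.2.2.2.2.2.2.2.2.2.2.1 c

theorem prj_sSup (s : Set C) : prj f (sSup s) = ⨆ c ∈ s, prj f c :=
  (all_alg A C f hf).2.2.2.2.2.2.2.2.2.2.2.2.2.2.2.1 s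

theorem prj_inf (c : C) (a : A) : prj f (c ⊓ f a) = prj f c ⊓ a :=
  (all_alg A C f hf).2.2.2.2.2.2.2.2.2.2.2.2.2.2.2.2.1 c a

theorem prj_inf' (c : C) (a : A) : prj f (f a ⊓ c) = a ⊓ prj f c := by
  rw [inf_comm, prj_inf hf, inf_comm]

theorem prj_eq_bot {c : C} : prj f c = ⊥ ↔ c = ⊥ :=
  (all_alg A C f hf).2.2.2.2.2.2.2.2.2.2.2.2.2.2.2.2.2.1 c

theorem prj_bot : prj f (⊥ : C) = ⊥ := (prj_eq_bot hf).2 rfl

end CE

section Meas

variable {A : Type u} [CompleteBooleanAlgebra A]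

theorem hm (a : A) : Measurable fun g : Ult A => a ∈ g := measurableSet_setOfPred.1 (measurable_mem A a)

theorem name_of {J : Type v} [Countable J] {F : J → Ult A → Prop}
    (hF : ∀ j, Measurable (F j)) : ∃ x : J → A, ∀ᶠ g in ae A, ∀ j, x j ∈ g ↔ F j g :=
  exists_name fun j => measurableSet_setOfPred.2 (hF j)

end Meas

section Miller

variable {A : Type u} [CompleteBooleanAlgebra A]

/-- The properties of the extension by Miller forcing. -/
structure MExt {C : Type u} [CompleteBooleanAlgebra C] (E : A → C) (G : MX A → C)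
    (N : List ℕ → C) : Prop where
  ce : IsCE E
  top : N [] = ⊤
  mono : ∀ t t', t <+: t' → N t' ≤ N t
  disj : ∀ t t', ¬ Cmp t t' → N t ⊓ N t' = ⊥
  succ : ∀ t, N t = ⨆ k, N (t ++ [k])
  ninc : ∀ t, ¬ Inc t → N t = ⊥
  prjN : ∀ (τ : MX A) t, prj E (G τ ⊓ N t) = τ.1 t
  stmN : ∀ (τ : MX A) t, E (stm τ t) ⊓ G τ ≤ N t
  restr : ∀ (τ : MX A) t, ∃ τ' : MX A, E (τ.1 t) ⊓ G τ' = G τ ⊓ N t ∧ τ.1 t ≤ stm τ' t ∧
    τ.1 t ≤ (MQ A).le τ' τ
  dens : ∀ c : C, c ≠ ⊥ → ∃ (b : A) (τ : MX A), b ≠ ⊥ ∧ E b ⊓ G τ ≤ c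
  prjG : ∀ τ : MX A, prj E (G τ) = ⊤
  mix : ∀ (T : Type u) (a : T → A) (τ : T → MX A), (∀ t t', t ≠ t' → a t ⊓ a t' = ⊥) →
    ∃ τ' : MX A, ∀ t s, a t ⊓ τ'.1 s = a t ⊓ (τ t).1 s
  congr : ∀ (τ τ' : MX A) (a : A), (∀ s, a ⊓ τ'.1 s = a ⊓ τ.1 s) → E a ⊓ G τ' = E a ⊓ G τ
  force : ∀ (τ : MX A) (c : C) (a : A), a ≤ (prj E (G τ ⊓ cᶜ))ᶜ ↔ E a ⊓ G τ ≤ c
  leG : ∀ τ τ' : MX A, (prj E (G τ ⊓ (G τ')ᶜ))ᶜ = (MQ A).le τ τ'

theorem mext (hND : NdStatement.{u}) (hM : MxfStatement.{u}) (A : Type u)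
    [CompleteBooleanAlgebra A] : MExt (mE A) mG ND := by
  obtain ⟨n0, n1, n2, n3, n4, n5, n6, n7⟩ := hND A
  obtain ⟨m1, m2, m3, m4, m5, m6, m7⟩ := hM A
  exact ⟨(all_tw1 A (MX A) (MQ A)).1, n1, n2, n3, n4, n5, n6, n7, m1, m2, m3, m4, m5, m6, m7⟩

variable {C : Type u} [CompleteBooleanAlgebra C] {E : A → C} {G : MX A → C} {N : List ℕ → C}
  (H : MExt E G N)

include H

theorem MExt.le_of_le (τ τ' : MX A) : E ((MQ A).le τ τ') ⊓ G τ ≤ G τ' := by
  rw [← H.force, H.leG]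

/-- Below `c` there is a tree with the same projection. -/
theorem MExt.full (hD : DisjStatement.{u}) (c : C) :
    ∃ τ : MX A, E (prj E c) ⊓ G τ ≤ c := by
  have hE := H.ce
  let T : Type u := {p : A × MX A // E p.1 ⊓ G p.2 ≤ c}
  obtain ⟨b, hb1, hb2, hb3⟩ := hD A T (fun p => p.1.1)
  obtain ⟨τ, hτ⟩ := H.mix T b (fun p => p.1.2) hb2
  refine ⟨τ, ?_⟩
  have h1 : prj E c ≤ ⨆ p, b p := by
    rw [hb3]
    by_contra hcon
    have h2 : prj E c ⊓ (⨆ p : T, p.1.1)ᶜ ≠ ⊥ := by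
      intro h
      apply hcon
      rw [← compl_compl (⨆ p : T, p.1.1), le_compl_iff_disjoint_right, disjoint_iff]
      exact h
    have h3 : c ⊓ E (⨆ p : T, p.1.1)ᶜ ≠ ⊥ := by
      intro h
      apply h2
      rw [← prj_inf hE, h, prj_bot hE]
    obtain ⟨b', τ', h4, h5⟩ := H.dens _ h3
    have h6 : b' ≤ ⨆ p : T, p.1.1 :=
      le_iSup (fun p : T => p.1.1) ⟨(b', τ'), h5.trans inf_le_left⟩
    have h7 : b' ≤ (⨆ p : T, p.1.1)ᶜ := by
      have h8 := prj_mono hE (h5.trans inf_le_right)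
      rw [prj_inf' hE, H.prjG, inf_top_eq, prj_f hE] at h8
      exact h8
    exact h4 (le_bot_iff.1 ((le_inf h6 h7).trans (inf_compl_eq_bot).le))
  refine (inf_le_inf_right _ ((f_le hE).2 h1)).trans ?_
  rw [f_iSup hE, iSup_inf_eq]
  refine iSup_le fun p => ?_
  rw [H.congr _ _ _ (hτ p)]
  exact (inf_le_inf_right _ ((f_le hE).2 (hb1 p))).trans p.2

end Miller

section Lists

theorem Cmp.symm {s t : List ℕ} (h : Cmp s t) : Cmp t s := Or.symm h

/-- An initial segment of a list comparable with `s` is comparable with `s`. -/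
theorem Cmp.of_prefix {s t t' : List ℕ} (h : Cmp s t) (ht : t' <+: t) : Cmp s t' := by
  rcases h with h | h
  · exact List.prefix_or_prefix_of_prefix h ht
  · exact Or.inr (ht.trans h)

/-- Two different immediate successors of `t`: a list comparable with both is an initial segment
of `t`. -/
theorem prefix_of_cmp {s t : List ℕ} {l l' : ℕ} (h : Cmp s (t ++ [l])) (h' : Cmp s (t ++ [l']))
    (hl : l ≠ l') : s <+: t := by
  by_contra hc
  have key : ∀ {m : ℕ}, Cmp s (t ++ [m]) → (t ++ [m]) <+: s := by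
    intro m hm
    rcases hm with h | h
    · rcases List.prefix_concat_iff.1 (by simpa using h) with h | h
      · rw [h]
      · exact absurd h hc
    · exact h
  have h1 := key h
  have h2 := key h'
  have h3 : t ++ [l] = t ++ [l'] := by
    rcases List.prefix_or_prefix_of_prefix h1 h2 with h | h
    · exact h.eq_of_length (by simp)
    · exact (h.eq_of_length (by simp)).symm
  exact hl (by simpa using h3)

theorem inc_prefix {s t : List ℕ} (h : s <+: t) (ht : Inc t) : Inc s :=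
  List.Pairwise.sublist h.sublist ht

theorem isMil_inc : IsMil {s | Inc s} where
  nil := List.Pairwise.nil
  pre t t' h h' := inc_prefix h h'
  inc t h := h
  spl t h := by
    refine ⟨t, List.prefix_rfl, fun m => ⟨max m (t.foldr max 0 + 1), le_max_left _ _, ?_⟩⟩
    show List.Pairwise (· < ·) (t ++ [max m (t.foldr max 0 + 1)])
    rw [List.pairwise_append]
    refine ⟨h, List.pairwise_singleton _ _, fun a ha b hb => ?_⟩
    rw [List.mem_singleton] at hb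
    subst hb
    have h1 : a ≤ t.foldr max 0 := by
      clear h
      induction t with
      | nil => simp at ha
      | cons x t ih =>
        rw [List.foldr_cons]
        rcases List.mem_cons.1 ha with rfl | ha
        · exact le_max_left _ _
        · exact (ih ha).trans (le_max_right _ _)
    exact lt_of_lt_of_le (Nat.lt_succ_of_le h1) (le_max_right _ _)

end Lists

end Pool.Agent.Lib.MP_6d445e_gt.H12
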