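import Pool.Agent.Lib.MP_6d445e_gt.H12.Tools

/-!
# TREE: a tree below `c` with stem `t`
-/

universe u v w

open Cardinal Filter

namespace Pool.Agent.Lib.MP_6d445e_gt.H12

open Pool.Agent.Lib.MP_100a6c_lc
open Pool.Agent.Lib.MP_c5d73d_lc.F (pr)
open Pool.Agent.Lib.MP_e6fef2_lc

section

variable {A : Type u} [CompleteBooleanAlgebra A]

theorem mem_iSup_prop {g : Ult A} {p : Prop} {a : A} : (⨆ _ : p, a) ∈ g ↔ p ∧ a ∈ g := by
  by_cases h : p
  · simp [h]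
  · simp [h, g.not_bot]

theorem mem_iInf_prop {g : Ult A} {p : Prop} {a : A} : (⨅ _ : p, a) ∈ g ↔ (p → a ∈ g) := by
  by_cases h : p
  · simp [h]
  · simp [h, g.mem_top]

theorem ae_stm (τ : MX A) (t : List ℕ) : ∀ᶠ g in ae A, stm τ t ∈ g ↔
    τ.1 t ∈ g ∧ ∀ s, ¬ Cmp s t → τ.1 s ∉ g := by
  filter_upwards [ae_iInf fun s : List ℕ => ⨅ _ : ¬ Cmp s t, (τ.1 s)ᶜ] with g hg
  unfold stm
  rw [g.mem_inf, hg]
  refine and_congr_right fun _ => forall_congr' fun s => ?_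
  rw [mem_iInf_prop, g.mem_compl]

theorem ae_le (τ τ' : MX A) : ∀ᶠ g in ae A, (MQ A).le τ τ' ∈ g ↔
    ∀ s, τ.1 s ∈ g → τ'.1 s ∈ g := by
  filter_upwards [ae_iInf fun s : List ℕ => τ.1 s ⇨ τ'.1 s] with g hg
  show (⨅ s, τ.1 s ⇨ τ'.1 s) ∈ g ↔ _
  rw [hg]
  exact forall_congr' fun s => g.mem_himp

theorem exists_max (p : ℕ → Prop) {k l : ℕ} (hk : k ≤ l) (hp : p k) :
    ∃ k', k ≤ k' ∧ k' ≤ l ∧ p k' ∧ ∀ k'', k' < k'' → k'' ≤ l → ¬ p k'' := by
  classical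
  refine ⟨Nat.findGreatest p l, Nat.le_findGreatest hk hp, Nat.findGreatest_le _,
    Nat.findGreatest_spec hk hp, fun k'' h h' => ?_⟩
  exact Nat.findGreatest_is_greatest h h'

/-- The tree which contains, above the node `t ++ [l]`, the tree `τ k l` for the largest `k ≤ l`
such that `b k l` holds. -/
def TPr (t : List ℕ) (τ : ℕ → ℕ → MX A) (b : ℕ → ℕ → A) (I : A) (s : List ℕ) (g : Ult A) : Prop :=
  (I ∈ g ∧ (s <+: t ∨ ∃ l k, k ≤ l ∧ b k l ∈ g ∧ (∀ k', k < k' → k' ≤ l → b k' l ∉ g) ∧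
    (τ k l).1 s ∈ g)) ∨ (I ∉ g ∧ Inc s)

theorem tpr_meas (t : List ℕ) (τ : ℕ → ℕ → MX A) (b : ℕ → ℕ → A) (I : A) (s : List ℕ) :
    Measurable (TPr t τ b I s) := by
  unfold TPr
  refine Measurable.or (Measurable.and (hm I) (Measurable.or measurable_const ?_))
    (Measurable.and (hm I).not measurable_const)
  refine Measurable.exists fun l => Measurable.exists fun k => ?_
  refine Measurable.and measurable_const (Measurable.and (hm _) (Measurable.and ?_ (hm _)))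
  refine Measurable.forall fun k' => ?_
  exact Measurable.imp measurable_const (Measurable.imp measurable_const (hm _).not)

variable {C : Type u} [CompleteBooleanAlgebra C]

/-- The map `lp`. -/
def lpg (E : A → C) (N : List ℕ → C) (t : List ℕ) (c : C) : A :=
  ⨅ m, ⨆ k, ⨆ _ : m ≤ k, prj E (c ⊓ N (t ++ [k]))

variable {E : A → C} {G : MX A → C} {N : List ℕ → C} (H : MExt E G N)

include H

theorem MExt.tree (hD : DisjStatement.{u}) (t : List ℕ) (c : C) (u : ℕ → C)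
    (hu : ∀ k k', k ≤ k' → u k' ≤ u k) :
    ∃ τ : MX A, E (⨅ k, lpg E N t (c ⊓ u k)) ⊓ G τ ≤ c ∧
      (⨅ k, lpg E N t (c ⊓ u k)) ≤ stm τ t ∧
      (⨅ k, lpg E N t (c ⊓ u k)) ≤ ⨅ k, lpg E N t (G τ ⊓ u k) := by
  have hE := H.ce
  choose τ hτ using fun k l => H.full hD (c ⊓ u k ⊓ N (t ++ [l]))
  obtain ⟨b, hb⟩ : ∃ b : ℕ → ℕ → A, ∀ k l, b k l = prj E (c ⊓ u k ⊓ N (t ++ [l])) :=
    ⟨_, fun _ _ => rfl⟩
  have hτ' : ∀ k l, E (b k l) ⊓ G (τ k l) ≤ c ⊓ u k ⊓ N (t ++ [l]) := fun k l => by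
    rw [hb]; exact hτ k l
  obtain ⟨I, hI⟩ : ∃ I, I = ⨅ k, lpg E N t (c ⊓ u k) := ⟨_, rfl⟩
  rw [← hI]
  have hb1 : ∀ k l, b k l ≤ (τ k l).1 (t ++ [l]) := by
    intro k l
    calc b k l = prj E (E (b k l) ⊓ G (τ k l)) := by rw [prj_inf' hE, H.prjG, inf_top_eq]
      _ ≤ prj E (G (τ k l) ⊓ N (t ++ [l])) :=
        prj_mono hE (le_inf inf_le_right ((hτ' k l).trans inf_le_right))
      _ = _ := H.prjN _ _
  have hb2 : ∀ k l s, ¬ Cmp s (t ++ [l]) → b k l ⊓ (τ k l).1 s = ⊥ := by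
    intro k l s hs
    refine le_bot_iff.1 ?_
    calc b k l ⊓ (τ k l).1 s = prj E (E (b k l) ⊓ (G (τ k l) ⊓ N s)) := by
          rw [prj_inf' hE, H.prjN]
      _ ≤ prj E (N (t ++ [l]) ⊓ N s) := by
          refine prj_mono hE (le_inf ?_ (inf_le_right.trans inf_le_right))
          exact (inf_le_inf_left _ inf_le_left).trans ((hτ' k l).trans inf_le_right)
      _ = ⊥ := by
          rw [H.disj _ _ (fun h => hs (Cmp.symm h)), prj_bot hE]
  have g1 : ∀ᶠ g in ae A, ∀ k l, IsMil {s | (τ k l).1 s ∈ g} :=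
    ae_all fun k => ae_all fun l => (τ k l).2
  have g2 : ∀ᶠ g in ae A, I ∈ g → ∀ k m, ∃ l, m ≤ l ∧ b k l ∈ g := by
    have h1 : ∀ᶠ g in ae A, ∀ k m, (⨆ l, ⨆ _ : m ≤ l, b k l) ∈ g ↔ ∃ l, (⨆ _ : m ≤ l, b k l) ∈ g :=
      ae_all fun k => ae_all fun m => ae_iSup _
    filter_upwards [h1] with g hg hIg k m
    have h2 : I ≤ ⨆ l, ⨆ _ : m ≤ l, b k l := by
      rw [hI]
      refine (iInf_le _ k).trans ((iInf_le _ m).trans ?_)
      exact iSup_mono fun l => iSup_mono fun _ => (hb k l).ge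
    obtain ⟨l, hl⟩ := (hg k m).1 (g.mono h2 hIg)
    exact ⟨l, mem_iSup_prop.1 hl⟩
  have g3 : ∀ g : Ult A, ∀ k l s, b k l ∈ g → (τ k l).1 s ∈ g → Cmp s (t ++ [l]) := by
    intro g k l s h h'
    by_contra hc
    have h1 := (g.mem_inf).2 ⟨h, h'⟩
    rw [hb2 k l s hc] at h1
    exact g.not_bot h1
  obtain ⟨y, hy⟩ := name_of (F := fun s g => TPr t τ b I s g) fun s => tpr_meas t τ b I s
  have hmil : ∀ᶠ g in ae A, IsMil {s | y s ∈ g} := by
    filter_upwards [hy, g1, g2] with g hy g1 g2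
    have h0 : {s | y s ∈ g} = {s | TPr t τ b I s g} := Set.ext fun s => hy s
    rw [h0]
    by_cases hIg : I ∈ g
    · have hinc : Inc t := by
        obtain ⟨l, -, hl⟩ := g2 hIg 0 0
        have h1 := (g1 0 l).inc _ (g.mono (hb1 0 l) hl)
        exact inc_prefix (List.prefix_append _ _) h1
      refine ⟨?_, ?_, ?_, ?_⟩
      · exact Or.inl ⟨hIg, Or.inl (List.nil_prefix)⟩
      · rintro s s' hs (⟨_, h | ⟨l, k, h1, h2, h3, h4⟩⟩ | ⟨h, _⟩)
        · exact Or.inl ⟨hIg, Or.inl (hs.trans h)⟩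
        · exact Or.inl ⟨hIg, Or.inr ⟨l, k, h1, h2, h3, (g1 k l).pre _ _ hs h4⟩⟩
        · exact absurd hIg h
      · rintro s (⟨_, h | ⟨l, k, h1, h2, h3, h4⟩⟩ | ⟨h, _⟩)
        · exact inc_prefix h hinc
        · exact (g1 k l).inc _ h4
        · exact absurd hIg h
      · rintro s (⟨_, h | ⟨l, k, h1, h2, h3, h4⟩⟩ | ⟨h, _⟩)
        · refine ⟨t, h, fun m => ?_⟩
          obtain ⟨l, hl, hl'⟩ := g2 hIg 0 m
          obtain ⟨k, h1, h2, h3, h4⟩ := exists_max (fun k => b k l ∈ g) (Nat.zero_le l) hl'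
          exact ⟨l, hl, Or.inl ⟨hIg, Or.inr ⟨l, k, h2, h3, h4, g.mono (hb1 k l) h3⟩⟩⟩
        · obtain ⟨t', h5, h6⟩ := (g1 k l).spl _ h4
          refine ⟨t', h5, fun m => ?_⟩
          obtain ⟨j, h7, h8⟩ := h6 m
          exact ⟨j, h7, Or.inl ⟨hIg, Or.inr ⟨l, k, h1, h2, h3, h8⟩⟩⟩
        · exact absurd hIg h
    · have h1 : {s | TPr t τ b I s g} = {s | Inc s} := by
        ext s
        simp only [TPr, hIg, Set.mem_ofPred_eq, false_and, not_false_eq_true, true_and, false_or]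
      rw [h1]
      exact isMil_inc
  obtain ⟨T, hT⟩ : ∃ T : MX A, T.1 = y := ⟨⟨y, hmil⟩, rfl⟩
  have hy' : ∀ᶠ g in ae A, ∀ s, T.1 s ∈ g ↔ TPr t τ b I s g := by rw [hT]; exact hy
  -- the stem
  have c2 : I ≤ stm T t := by
    refine le_of_ae ?_
    filter_upwards [hy', ae_stm T t] with g hy h2 hIg
    rw [h2]
    refine ⟨(hy t).2 (Or.inl ⟨hIg, Or.inl List.prefix_rfl⟩), fun s hs h => ?_⟩
    rcases (hy s).1 h with ⟨_, h | ⟨l, k, h1, h2, h3, h4⟩⟩ | ⟨h, _⟩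
    · exact hs (Or.inl h)
    · exact hs (Cmp.of_prefix (g3 g k l s h2 h4) (List.prefix_append _ _))
    · exact h hIg
  -- the part above a successor of the stem
  let v : ℕ → ℕ → A := fun k l => b k l ⊓ ⨅ k' ∈ Finset.Ioc k l, (b k' l)ᶜ
  have hv : ∀ (g : Ult A) k l, v k l ∈ g ↔ b k l ∈ g ∧ ∀ k', k < k' → k' ≤ l → b k' l ∉ g := by
    intro g k l
    rw [g.mem_inf, g.mem_finset_iInf]
    refine and_congr_right fun _ => ⟨fun h k' h1 h2 => ?_, fun h k' hk => ?_⟩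
    · exact (g.mem_compl).1 (h k' (Finset.mem_Ioc.2 ⟨h1, h2⟩))
    · rw [Finset.mem_Ioc] at hk
      exact (g.mem_compl).2 (h k' hk.1 hk.2)
  have star : ∀ k l, k ≤ l → E (I ⊓ v k l) ⊓ (G T ⊓ N (t ++ [l])) ≤ c ⊓ u k ⊓ N (t ++ [l]) := by
    intro k l hkl
    obtain ⟨τ', h1, h2, h3⟩ := H.restr T (t ++ [l])
    have h4 : I ⊓ v k l ⊓ T.1 (t ++ [l]) ≤ (MQ A).le τ' (τ k l) ⊓ b k l := by
      refine le_of_ae ?_
      filter_upwards [hy', g1, ae_stm τ' (t ++ [l]), ae_le τ' T, ae_le τ' (τ k l)] with g hy g1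
        h5 h6 h7 h8
      rw [g.mem_inf, g.mem_inf, hv] at h8
      obtain ⟨⟨hIg, hb5, hmax⟩, hT5⟩ := h8
      rw [g.mem_inf, h7]
      refine ⟨fun s hs => ?_, hb5⟩
      have h9 : Cmp s (t ++ [l]) := by
        by_contra hc
        exact (h5.1 (g.mono h2 hT5)).2 s hc hs
      have h10 := h6.1 (g.mono h3 hT5) s hs
      have hpre : ∀ s', s' <+: t → (τ k l).1 s' ∈ g := fun s' hs' =>
        (g1 k l).pre _ _ (hs'.trans (List.prefix_append _ _)) (g.mono (hb1 k l) hb5)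
      rcases (hy s).1 h10 with ⟨_, h | ⟨l', k', h11, h12, h13, h14⟩⟩ | ⟨h, _⟩
      · exact hpre s h
      · by_cases hl : l' = l
        · subst hl
          have hk : k' = k := by
            rcases lt_trichotomy k' k with h | h | h
            · exact absurd hb5 (h13 k h hkl)
            · exact h
            · exact absurd h12 (hmax k' h h11)
          rw [← hk]
          exact h14
        · exact hpre s (prefix_of_cmp (g3 g k' l' s h12 h14) h9 hl)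
      · exact absurd hIg h
    calc E (I ⊓ v k l) ⊓ (G T ⊓ N (t ++ [l]))
        = E (I ⊓ v k l ⊓ T.1 (t ++ [l])) ⊓ G τ' := by
          rw [← h1, ← inf_assoc, f_inf hE (I ⊓ v k l)]
      _ ≤ E ((MQ A).le τ' (τ k l) ⊓ b k l) ⊓ G τ' := inf_le_inf_right _ ((f_le hE).2 h4)
      _ ≤ E (b k l) ⊓ G (τ k l) := by
          rw [f_inf hE]
          refine le_inf (inf_le_left.trans inf_le_right) ?_
          exact (inf_le_inf_right _ inf_le_left).trans (H.le_of_le _ _)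
      _ ≤ _ := hτ' k l
  refine ⟨T, ?_, c2, ?_⟩
  · refine le_of_ae ?_
    have h1 : ∀ᶠ h in ae C, (⨆ l, N (t ++ [l])) ∈ h ↔ ∃ l, N (t ++ [l]) ∈ h := ae_iSup _
    filter_upwards [ae_pull hE hy', h1] with h hy h1 h2
    have h3 : N t ∈ h := h.mono ((inf_le_inf_right _ ((f_le hE).2 c2)).trans (H.stmN T t)) h2
    rw [h.mem_inf] at h2
    rw [H.succ t, h1] at h3
    obtain ⟨l, hl⟩ := h3
    have h4 : T.1 (t ++ [l]) ∈ h.pull hE := by
      have h5 : G T ⊓ N (t ++ [l]) ≤ E (T.1 (t ++ [l])) := by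
        rw [← prj_le_iff hE, H.prjN]
      exact h.mono h5 ((h.mem_inf).2 ⟨h2.2, hl⟩)
    have hIg : I ∈ h.pull hE := h2.1
    rcases (hy _).1 h4 with ⟨_, h5 | ⟨l', k, h11, h12, h13, h14⟩⟩ | ⟨h5, _⟩
    · exact absurd h5.length_le (by simp)
    · have hl' : l' = l := by
        by_contra hne
        have h15 := g3 _ k l' _ h12 h14
        have h16 := prefix_of_cmp h15 (Or.inl List.prefix_rfl) hne
        exact absurd h16.length_le (by simp)
      subst hl'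
      have h15 : E (I ⊓ v k l') ∈ h := by
        have h16 : I ⊓ v k l' ∈ h.pull hE := by
          rw [Ult.mem_inf, hv]
          exact ⟨hIg, h12, h13⟩
        exact h16
      have h17 := h.mono (star k l' h11) ((h.mem_inf).2 ⟨h15, (h.mem_inf).2 ⟨h2.2, hl⟩⟩)
      exact h.mono (inf_le_left.trans inf_le_left) h17
    · exact absurd hIg h5
  · refine le_iInf fun k => le_iInf fun m => le_of_ae ?_
    filter_upwards [hy', g2] with g hy g2 hIg
    obtain ⟨l, hl, hl'⟩ := g2 hIg k (max m k)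
    obtain ⟨k', h1, h2, h3, h4⟩ := exists_max (fun k => b k l ∈ g) ((le_max_right m k).trans hl) hl'
    have h5 : I ⊓ v k' l ⊓ T.1 (t ++ [l]) ∈ g := by
      rw [g.mem_inf, g.mem_inf, hv, hy]
      exact ⟨⟨hIg, h3, h4⟩, Or.inl ⟨hIg, Or.inr ⟨l, k', h2, h3, h4, g.mono (hb1 k' l) h3⟩⟩⟩
    have h6 : I ⊓ v k' l ⊓ T.1 (t ++ [l]) ≤ prj E (G T ⊓ u k ⊓ N (t ++ [l])) := by
      rw [← H.prjN T (t ++ [l]), ← prj_inf' hE]
      refine prj_mono hE ?_
      refine le_inf (le_inf (inf_le_right.trans inf_le_left) ?_) (inf_le_right.trans inf_le_right)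
      exact (star k' l h2).trans (inf_le_left.trans (inf_le_right.trans (hu _ _ h1)))
    refine g.mono ?_ (g.mono h6 h5)
    exact le_iSup₂_of_le l ((le_max_left m k).trans hl) le_rfl

end

/-- TREE. -/
theorem tree (hND : NdStatement.{u}) (hM : MxfStatement.{u}) (_hL : LpStatement.{u})
    (hD : DisjStatement.{u}) (hI : ItpStatement.{u}) : TreeStatement.{u} := by
  intro A _ t c x z
  have H := mext hND hM A
  have h1 := (hI A (MC A) (mE A) H.ce).2.1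
  exact H.tree hD t c (fun k => agr (mE A) z x k) fun k k' hk => h1 z x k k' hk

end Pool.Agent.Lib.MP_6d445e_gt.H12
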